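import Pool.Agent.H43.PS.Targets

/-! Row POW of the board `psd_modules`. -/

namespace H43.PS

open Matrix Finset MeasureTheory

theorem tr_conj_diag {κ : Type} [Fintype κ] [DecidableEq κ] (E U : Matrix κ κ ℝ) (d : κ → ℝ) :
    (E * (U * diagonal d * Uᵀ)).trace = ∑ i, d i * (Uᵀ * E * U) i i := by
  have h : (E * (U * diagonal d * Uᵀ)).trace = (Uᵀ * E * U * diagonal d).trace := by
    rw [Matrix.trace_mul_comm, Matrix.mul_assoc (U * diagonal d), Matrix.trace_mul_comm,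
      ← Matrix.mul_assoc (Uᵀ * E)]
  rw [h, Matrix.trace]
  refine Finset.sum_congr rfl (fun i _ => ?_)
  rw [Matrix.diag_apply, Matrix.mul_diagonal, mul_comm]

theorem POW (hSPC : T_SPC) (hRAU : T_RAU) (hINT : T_INT) : T_POW := by
  intro κ _ _ A B s hA hB hs1 hs2
  obtain ⟨c, hc, hI⟩ := hINT s hs1 hs2
  obtain ⟨U, a, -, -, -, ha, hfA⟩ := hSPC κ A hA.isHermitian
  obtain ⟨V, b, -, -, -, hb, hfB⟩ := hSPC κ B hB.isHermitian
  obtain ⟨W, e, -, -, -, -, hfE⟩ := hSPC κ (A - B) (hA.isHermitian.sub hB.isHermitian)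
  replace ha := ha hA
  replace hb := hb hB
  set α : κ → ℝ := fun i => (Uᵀ * (A - B) * U) i i with hα
  set β : κ → ℝ := fun j => (Vᵀ * (A - B) * V) j j with hβ
  have key : ∀ u : ℝ, 0 < u → ∑ k, |e k| * (e k ^ 2 / (|e k| + u)) ≤
      ∑ i, (a i ^ 2 / (a i + u)) * α i - ∑ j, (b j ^ 2 / (b j + u)) * β j := by
    intro u hu
    have h := hRAU κ A B u hA hB hu
    rw [(hfE _).2, (hfA _).1, (hfB _).1, Matrix.mul_sub, Matrix.trace_sub, tr_conj_diag,
      tr_conj_diag] at h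
    exact h
  have hL : ta (1 + s) (A - B) = ∑ k, |e k| ^ (1 + s) := (hfE _).2
  have hR : ((A - B) * (fm (fun t => t ^ s) A - fm (fun t => t ^ s) B)).trace =
      ∑ i, a i ^ s * α i - ∑ j, b j ^ s * β j := by
    rw [(hfA _).1, (hfB _).1, Matrix.mul_sub, Matrix.trace_sub, tr_conj_diag, tr_conj_diag]
  rw [hL, hR]
  -- the two functions of u
  have iF : ∀ k, IntegrableOn (fun u : ℝ => |e k| * (u ^ (s - 2) * (|e k| ^ 2 / (|e k| + u))))
      (Set.Ioi 0) := fun k => ((hI _ (abs_nonneg (e k))).1).const_mul _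
  have iA : ∀ i, IntegrableOn (fun u : ℝ => (u ^ (s - 2) * (a i ^ 2 / (a i + u))) * α i)
      (Set.Ioi 0) := fun i => ((hI _ (ha i)).1).mul_const _
  have iB : ∀ j, IntegrableOn (fun u : ℝ => (u ^ (s - 2) * (b j ^ 2 / (b j + u))) * β j)
      (Set.Ioi 0) := fun j => ((hI _ (hb j)).1).mul_const _
  have iFs : IntegrableOn (fun u : ℝ => ∑ k, |e k| * (u ^ (s - 2) * (|e k| ^ 2 / (|e k| + u))))
      (Set.Ioi 0) := integrable_finsetSum _ (fun k _ => iF k)
  have iAs : IntegrableOn (fun u : ℝ => ∑ i, (u ^ (s - 2) * (a i ^ 2 / (a i + u))) * α i)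
      (Set.Ioi 0) := integrable_finsetSum _ (fun k _ => iA k)
  have iBs : IntegrableOn (fun u : ℝ => ∑ j, (u ^ (s - 2) * (b j ^ 2 / (b j + u))) * β j)
      (Set.Ioi 0) := integrable_finsetSum _ (fun k _ => iB k)
  have hmono : ∫ u in Set.Ioi (0 : ℝ), ∑ k, |e k| * (u ^ (s - 2) * (|e k| ^ 2 / (|e k| + u))) ≤
      ∫ u in Set.Ioi (0 : ℝ), (∑ i, (u ^ (s - 2) * (a i ^ 2 / (a i + u))) * α i -
        ∑ j, (u ^ (s - 2) * (b j ^ 2 / (b j + u))) * β j) := by
    refine setIntegral_mono_on iFs (iAs.sub iBs) measurableSet_Ioi (fun u hu => ?_)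
    have hu : (0 : ℝ) < u := hu
    have h := mul_le_mul_of_nonneg_left (key u hu) (Real.rpow_nonneg hu.le (s - 2))
    calc ∑ k, |e k| * (u ^ (s - 2) * (|e k| ^ 2 / (|e k| + u)))
        = u ^ (s - 2) * ∑ k, |e k| * (e k ^ 2 / (|e k| + u)) := by
          rw [Finset.mul_sum]
          refine Finset.sum_congr rfl (fun k _ => ?_)
          rw [sq_abs]; ring
      _ ≤ _ := h
      _ = _ := by
          rw [mul_sub, Finset.mul_sum, Finset.mul_sum]
          congr 1
          · exact Finset.sum_congr rfl (fun k _ => by ring)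
          · exact Finset.sum_congr rfl (fun k _ => by ring)
  rw [integral_finsetSum _ (fun k _ => iF k), integral_sub iAs iBs,
    integral_finsetSum _ (fun k _ => iA k), integral_finsetSum _ (fun k _ => iB k)] at hmono
  have e1 : ∀ k, ∫ u in Set.Ioi (0 : ℝ), |e k| * (u ^ (s - 2) * (|e k| ^ 2 / (|e k| + u))) =
      c * |e k| ^ (1 + s) := by
    intro k
    rw [integral_const_mul, (hI _ (abs_nonneg (e k))).2,
      Real.rpow_add_of_nonneg (abs_nonneg _) zero_le_one (by linarith), Real.rpow_one]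
    ring
  have e2 : ∀ i, ∫ u in Set.Ioi (0 : ℝ), (u ^ (s - 2) * (a i ^ 2 / (a i + u))) * α i =
      c * (a i ^ s * α i) := by
    intro i
    rw [integral_mul_const, (hI _ (ha i)).2]; ring
  have e3 : ∀ j, ∫ u in Set.Ioi (0 : ℝ), (u ^ (s - 2) * (b j ^ 2 / (b j + u))) * β j =
      c * (b j ^ s * β j) := by
    intro j
    rw [integral_mul_const, (hI _ (hb j)).2]; ring
  simp only [e1, e2, e3, ← Finset.mul_sum] at hmono
  rw [← mul_sub] at hmono
  exact le_of_mul_le_mul_left hmono hc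

end H43.PS
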