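import Pool.Agent.H43.PS.Targets

/-! Row SPL of the board `psd_modules`. -/

namespace H43.PS

open Matrix Finset

theorem SPL (hSQR : T_SQR) (hBRP : T_BRP) (hCVX : T_CVX) (hGRM : T_GRM) (hSCL : T_SCL) : T_SPL := by
  intro κ Θ _ _ _ _ v p σ hp1 hp2 hσ hΘ hv
  have hp0 : 0 < p := by linarith
  have hQ : (0 : ℝ) < (Fintype.card Θ : ℝ) := by exact_mod_cast hΘ
  have hvb : (avm v).PosSemidef := by
    unfold avm
    exact (Matrix.posSemidef_sum _ (fun θ _ => hv θ)).smul (inv_nonneg.2 hQ.le)
  obtain ⟨R, hR, hRR⟩ := hSQR κ (avm v) hvb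
  choose A hA hAA using fun θ => hSQR κ (v θ) (hv θ)
  set X : Option Θ → Matrix κ κ ℝ := fun u => match u with
    | none => R
    | some θ => σ • (A θ - R) with hX
  have hXT : ∀ u, (X u)ᵀ = X u := by
    intro u
    cases u with
    | none =>
      have := hR.isHermitian
      simpa [hX, Matrix.IsHermitian, Matrix.conjTranspose_eq_transpose_of_trivial] using this
    | some θ =>
      have h1 := hR.isHermitian
      have h2 := (hA θ).isHermitian
      simp only [Matrix.IsHermitian, Matrix.conjTranspose_eq_transpose_of_trivial] at h1 h2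
      simp [hX, h1, h2]
  set LL : Matrix κ (Option Θ × κ) ℝ := fun z ux => X ux.1 z ux.2 with hLL
  refine ⟨LLᵀ * LL, ?_, ?_, ?_⟩
  · have := Matrix.posSemidef_conjTranspose_mul_self LL
    rwa [Matrix.conjTranspose_eq_transpose_of_trivial] at this
  · intro θ x y
    have hsum : ∀ z w, ∑ u, cc σ θ u * X u z w = A θ z w := by
      intro z w
      rw [Fintype.sum_option]
      have : ∀ θ' : Θ, cc σ θ (some θ') * X (some θ') z w =
          if θ' = θ then σ⁻¹ * (σ * (A θ' z w - R z w)) else 0 := by
        intro θ'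
        by_cases h : θ' = θ
        · simp [cc, hX, h]
        · simp [cc, h]
      simp only [this]
      rw [Finset.sum_ite_eq' Finset.univ θ]
      simp only [Finset.mem_univ, if_true, cc, hX, one_mul]
      field_simp
      ring
    have hG : ∀ u u', (LLᵀ * LL) (u, x) (u', y) = ∑ z, X u z x * X u' z y := by
      intro u u'
      rw [Matrix.mul_apply]
      rfl
    have hAT : (A θ)ᵀ = A θ := by
      have := (hA θ).isHermitian
      rwa [Matrix.IsHermitian, Matrix.conjTranspose_eq_transpose_of_trivial] at this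
    calc v θ x y = ((A θ)ᵀ * A θ) x y := by rw [hAT, hAA]
      _ = ∑ z, A θ z x * A θ z y := by rw [Matrix.mul_apply]; rfl
      _ = ∑ z, (∑ u, cc σ θ u * X u z x) * (∑ u', cc σ θ u' * X u' z y) := by
          refine Finset.sum_congr rfl (fun z _ => ?_)
          rw [hsum, hsum]
      _ = ∑ z, ∑ u, ∑ u', cc σ θ u * cc σ θ u' * (X u z x * X u' z y) := by
          refine Finset.sum_congr rfl (fun z _ => ?_)
          rw [Finset.sum_mul_sum]
          refine Finset.sum_congr rfl (fun u _ => Finset.sum_congr rfl (fun u' _ => ?_))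
          ring
      _ = ∑ u, ∑ u', ∑ z, cc σ θ u * cc σ θ u' * (X u z x * X u' z y) := by
          rw [Finset.sum_comm]
          refine Finset.sum_congr rfl (fun u _ => ?_)
          rw [Finset.sum_comm]
      _ = _ := by
          refine Finset.sum_congr rfl (fun u _ => Finset.sum_congr rfl (fun u' _ => ?_))
          rw [hG, Finset.mul_sum]
  · have h1 : tp p (LLᵀ * LL) = tp p (LL * LLᵀ) :=
      hGRM κ (Option Θ × κ) LL (fun t => t ^ p) (by simp [Real.zero_rpow hp0.ne'])
    have h2 : LL * LLᵀ = ∑ u, X u * X u := by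
      ext x y
      rw [Matrix.mul_apply, Fintype.sum_prod_type, Matrix.sum_apply]
      refine Finset.sum_congr rfl (fun u _ => ?_)
      have : X u * X u = X u * (X u)ᵀ := by rw [hXT]
      rw [this, Matrix.mul_apply]
      rfl
    have hpsd : ∀ u, (X u * X u).PosSemidef := by
      intro u
      have h := Matrix.posSemidef_conjTranspose_mul_self (X u)
      rwa [Matrix.conjTranspose_eq_transpose_of_trivial, hXT] at h
    have h3 := (hCVX κ (Option Θ) (fun u => X u * X u) p hp1 hp2 (by simp) hpsd).2
    have hcard : (Fintype.card (Option Θ) : ℝ) = (Fintype.card Θ : ℝ) + 1 := by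
      rw [Fintype.card_option]; push_cast; ring
    rw [h1, h2]
    refine h3.trans ?_
    rw [hcard, Fintype.sum_option]
    refine mul_le_mul_of_nonneg_left ?_ (Real.rpow_nonneg (by linarith) _)
    have h4 : ∀ θ, tp p (X (some θ) * X (some θ)) = σ ^ (2 * p) * ta (2 * p) (A θ - R) := by
      intro θ
      have hE : (A θ - R).IsHermitian := (hA θ).isHermitian.sub hR.isHermitian
      have hEE : ((A θ - R) * (A θ - R)).PosSemidef := by
        have h := Matrix.posSemidef_conjTranspose_mul_self (A θ - R)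
        rwa [hE] at h
      have : X (some θ) * X (some θ) = (σ ^ 2) • ((A θ - R) * (A θ - R)) := by
        simp only [hX]
        rw [Matrix.smul_mul, Matrix.mul_smul, smul_smul, sq]
      rw [this, (hSCL κ p hp0).1 _ _ (sq_nonneg σ) hEE, (hSCL κ p hp0).2 _ hE,
        Real.rpow_mul hσ.le, Real.rpow_two]
    have h5 : ∀ θ, (p - 1) * ta (2 * p) (A θ - R) ≤ tp p (v θ) - tp p (avm v) -
        p * (fm (fun t => t ^ (p - 1)) (avm v) * (v θ - avm v)).trace := fun θ =>
      hBRP κ (v θ) (avm v) (A θ) R p hp1 hp2 (hA θ) hR (hAA θ) hRR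
    have h6 : ∑ θ, (v θ - avm v) = 0 := by
      rw [Finset.sum_sub_distrib, Finset.sum_const, Finset.card_univ, avm]
      rw [← Nat.cast_smul_eq_nsmul ℝ, smul_smul, mul_inv_cancel₀ hQ.ne', one_smul, sub_self]
    have h7 : ∑ θ, (fm (fun t => t ^ (p - 1)) (avm v) * (v θ - avm v)).trace = 0 := by
      rw [← Matrix.trace_sum, ← Finset.mul_sum, h6, Matrix.mul_zero, Matrix.trace_zero]
    have h8 : (p - 1) * ∑ θ, ta (2 * p) (A θ - R) ≤
        (Fintype.card Θ : ℝ) * (av (fun θ => tp p (v θ)) - tp p (avm v)) := by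
      rw [Finset.mul_sum]
      refine (Finset.sum_le_sum (fun θ _ => h5 θ)).trans (le_of_eq ?_)
      rw [Finset.sum_sub_distrib, Finset.sum_sub_distrib, ← Finset.mul_sum, h7, Finset.sum_const,
        Finset.card_univ, nsmul_eq_mul, av, mul_sub, ← mul_assoc, mul_inv_cancel₀ hQ.ne', one_mul]
      ring
    have hnone : X none * X none = avm v := hRR
    rw [hnone]
    simp only [h4, ← Finset.mul_sum]
    have h9 : ∑ θ, ta (2 * p) (A θ - R) ≤
        (Fintype.card Θ : ℝ) / (p - 1) * (av (fun θ => tp p (v θ)) - tp p (avm v)) := by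
      rw [div_mul_eq_mul_div, le_div_iff₀ (by linarith)]
      linarith
    have := mul_le_mul_of_nonneg_left h9 (Real.rpow_nonneg hσ.le (2 * p))
    linarith

end H43.PS
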